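import Mathlib
import Pool.Agent.Z894.CP.Stm4
import Pool.Agent.TH922.KC.Galois
import Pool.Agent.Y3.CP.Cnt

/-! # Project SP, part 1 (helper3 for helper894): powers of hidden roots lie in the field -/

set_option autoImplicit false
set_option linter.all false

open MvPolynomial

namespace Pool.Agent.Y3.SP

open Pool.Agent.TH922.KC Pool.Agent.Z894.LX Pool.Agent.Z894.CP Pool.Agent.Y3.CP

/-- elements algebraic over a subring of an algebraically closed field lie in that field -/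
theorem mem_of_sub {k1 κ Ω : Type} [Field k1] [Field κ] [Field Ω] [Algebra k1 κ] [Algebra κ Ω]
    [Algebra k1 Ω] [IsScalarTower k1 κ Ω] [IsAlgClosed κ] {S : Set Ω}
    (hS : ∀ y ∈ S, ∃ c : κ, algebraMap κ Ω c = y) {z : Ω}
    (h : IsAlgebraic (Algebra.adjoin k1 S) z) : ∃ c : κ, algebraMap κ Ω c = z := by
  have hle : Algebra.adjoin k1 S ≤ (IsScalarTower.toAlgHom k1 κ Ω).range := by
    rw [Algebra.adjoin_le_iff]
    intro y hy
    obtain ⟨c, hc⟩ := hS y hy
    exact ⟨c, hc⟩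
  have hinj : Function.Injective (IsScalarTower.toAlgHom k1 κ Ω) := (algebraMap κ Ω).injective
  let e : κ ≃ₐ[k1] (IsScalarTower.toAlgHom k1 κ Ω).range := AlgEquiv.ofInjective _ hinj
  let φ : Algebra.adjoin k1 S →ₐ[k1] κ :=
    (e.symm : (IsScalarTower.toAlgHom k1 κ Ω).range →ₐ[k1] κ).comp (Subalgebra.inclusion hle)
  have hφ : ∀ y, algebraMap κ Ω (φ y) = (y : Ω) := by
    intro y
    have h1 : e (φ y) = Subalgebra.inclusion hle y := e.apply_symm_apply _
    exact congrArg Subtype.val h1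
  have hφi : Function.Injective φ := by
    intro a b hab
    apply Subtype.ext
    rw [← hφ a, ← hφ b, hab]
  obtain ⟨P, hP0, hP⟩ := h
  have h2 : IsAlgebraic κ z := by
    refine ⟨P.map (φ : Algebra.adjoin k1 S →+* κ), ?_, ?_⟩
    · exact (Polynomial.map_ne_zero_iff (f := (φ : Algebra.adjoin k1 S →+* κ)) hφi).2 hP0
    · rw [Polynomial.aeval_def, Polynomial.eval₂_map]
      have h3 : (algebraMap κ Ω).comp (φ : Algebra.adjoin k1 S →+* κ) =
          algebraMap (Algebra.adjoin k1 S) Ω := RingHom.ext hφ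
      rw [h3]
      exact hP
  have h7 : (minpoly κ z).degree = 1 :=
    IsAlgClosed.degree_eq_one_of_irreducible κ (minpoly.irreducible h2.isIntegral)
  exact minpoly.mem_range_of_degree_eq_one κ _ h7

theorem rt {κ : Type} [Field κ] {r : κ} {N : ℕ} (h : r ^ N = 1) (k : ℕ) : (r ^ k) ^ N = 1 := by
  rw [pow_right_comm, h, one_pow]

theorem Mf_le {k0 F : Type} [Field k0] [Field F] [Algebra k0 F] {S S' : Set F}
    (h : ∀ z ∈ S, z ∈ Mf k0 S') : Mf k0 S ≤ Mf k0 S' := by
  intro z hz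
  have h1 : z ∈ (AlgebraicIndependent.matroid k0 F).closure S := by
    rw [AlgebraicIndependent.matroid_closure_eq]; exact hz
  have h0 : S ⊆ (AlgebraicIndependent.matroid k0 F).closure S' := by
    rw [AlgebraicIndependent.matroid_closure_eq]; exact h
  have h2 := (AlgebraicIndependent.matroid k0 F).closure_subset_closure_of_subset_closure h0 h1
  rw [AlgebraicIndependent.matroid_closure_eq] at h2
  exact h2

/-- the Kummer automorphism -/
theorem kummer {κ Ω : Type} [Field κ] [Field Ω] [Algebra κ Ω] [CharZero κ] (p : ℕ)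
    (hp : p.Prime) (k0 s : ℕ) (ω : κ) (hω : IsPrimitiveRoot ω (p ^ s)) (J : Type) [Fintype J]
    (z : J → Ω) (F : IntermediateField κ Ω) (hzF : ∀ j, z j ^ (p ^ s) ∈ F) (j1 : J)
    (hj1 : z j1 ^ (p ^ k0) ∉ F) : ∃ ξ : J → κ, (∀ j, ξ j ^ (p ^ s) = 1) ∧
      IsPrimitiveRoot (ξ j1) (p ^ (k0 + 1)) ∧
      ∃ (V : Type) (_ : Field V) (ι : V →+* Ω) (α : F →+* V) (v : J → V) (σ : V →+* V),
        (∀ y, ι (α y) = y) ∧ (∀ j, ι (v j) = z j) ∧ (∀ y, σ (α y) = α y) ∧
        ∀ j, σ (v j) = α (algebraMap κ F (ξ j)) * v j := by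
  classical
  set V := IntermediateField.adjoin F (Set.range z) with hV
  let v' : J → V := fun x => ⟨z x, IntermediateField.subset_adjoin _ _ (Set.mem_range_self x)⟩
  have hgen : IntermediateField.adjoin F (Set.range v') = ⊤ := by
    apply IntermediateField.lift_injective V
    rw [IntermediateField.lift_adjoin, IntermediateField.lift_top, ← Set.range_comp]
    rfl
  let a : J → F := fun x => ⟨z x ^ (p ^ s), hzF x⟩
  have hva : ∀ x, v' x ^ (p ^ s) = algebraMap F V (a x) := fun x => Subtype.ext rfl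
  have hωF : IsPrimitiveRoot (algebraMap κ F ω) (p ^ s) :=
    hω.map_of_injective (algebraMap κ F).injective
  have hcF : CharZero F := charZero_of_injective_algebraMap (algebraMap κ F).injective
  have hcV : CharZero V := charZero_of_injective_algebraMap (algebraMap κ V).injective
  obtain ⟨hfd, ⟨k, hk⟩, τ, hτinj, hτ⟩ := galois_count hp (algebraMap κ F ω) hωF v' a hva hgen
  have hτi : Function.Injective τ := by
    intro i i' h
    apply hτinj
    funext j
    show τ i (v' j) = τ i' (v' j)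
    rw [h]
  have hcardA : Fintype.card (V ≃ₐ[F] V) = Module.finrank F V := by
    apply le_antisymm
    · exact AlgEquiv.card_le
    · have := Fintype.card_le_of_injective τ hτi
      rwa [Fintype.card_fin] at this
  have hbij : Function.Bijective τ := by
    rw [Fintype.bijective_iff_injective_and_card]
    exact ⟨hτi, by rw [Fintype.card_fin, hcardA]⟩
  have hG : IsGalois F V := IsGalois.of_card_aut_eq_finrank F V (by
    rw [Nat.card_eq_fintype_card, hcardA])
  obtain ⟨σ0, hσ0⟩ : ∃ σ0 : V ≃ₐ[F] V, σ0 (v' j1 ^ (p ^ k0)) ≠ v' j1 ^ (p ^ k0) := by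
    by_contra hall
    push Not at hall
    have h1 := (IsGalois.mem_bot_iff_fixed (F := F) (v' j1 ^ (p ^ k0))).2 hall
    rw [IntermediateField.mem_bot] at h1
    obtain ⟨y, hy⟩ := h1
    apply hj1
    have h2 : (y : Ω) = z j1 ^ (p ^ k0) := congrArg Subtype.val hy
    rw [← h2]
    exact y.2
  obtain ⟨i0, hi0⟩ := hbij.2 σ0
  choose l hl using fun j => hτ i0 j
  rw [hi0] at hl
  have hr : (ω ^ l j1) ^ (p ^ k0) ≠ 1 := by
    intro h
    apply hσ0
    rw [map_pow, hl, mul_pow, ← map_pow, ← map_pow, ← map_pow, h, map_one, map_one, one_mul]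
  have hrs : (ω ^ l j1) ^ (p ^ s) = 1 := by
    rw [pow_right_comm, hω.pow_eq_one, one_pow]
  obtain ⟨e, -, he⟩ := (Nat.dvd_prime_pow hp).1 (orderOf_dvd_of_pow_eq_one hrs)
  have he0 : k0 < e := by
    by_contra hek
    apply hr
    have h1 : orderOf (ω ^ l j1) ∣ p ^ k0 := by
      rw [he]
      exact pow_dvd_pow _ (by omega)
    exact orderOf_dvd_iff_pow_eq_one.1 h1
  have hpr : IsPrimitiveRoot ((ω ^ l j1) ^ (p ^ (e - (k0 + 1)))) (p ^ (k0 + 1)) := by
    refine (IsPrimitiveRoot.orderOf (ω ^ l j1)).pow (by rw [he]; exact pow_pos hp.pos _) ?_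
    rw [he, ← pow_add]
    congr 1
    omega
  have hσp : ∀ (i : ℕ) j, (σ0 ^ i) (v' j) =
      algebraMap F V (algebraMap κ F ((ω ^ l j) ^ i)) * v' j := by
    intro i j
    induction i with
    | zero => simp
    | succ i ih =>
      rw [pow_succ', AlgEquiv.mul_apply, ih, map_mul, AlgEquiv.commutes, hl, pow_succ, map_mul,
        map_mul, map_pow (algebraMap κ F) ω]
      ring
  refine ⟨fun j => (ω ^ l j) ^ (p ^ (e - (k0 + 1))), fun j => ?_, hpr, V, inferInstance,
    algebraMap V Ω, algebraMap F V, v', ((σ0 ^ (p ^ (e - (k0 + 1))) : V ≃ₐ[F] V) : V →+* V),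
    fun y => rfl, fun j => rfl, fun y => ?_, fun j => ?_⟩
  · exact rt (rt hω.pow_eq_one _) _
  · exact (σ0 ^ (p ^ (e - (k0 + 1)))).commutes y
  · exact hσp _ j

theorem hid_holds : Pool.Agent.Z894.SP.SHid := by
  classical
  intro k1 κ Ω _ _ _ _ _ _ _ _ _ p hpf n k0 s t hnp ht ω hω J _ x j0 hx0 z X0 a F hxF hzF hX0 haF
    hzalg haalg c hc hrel j1
  by_contra hj1
  have hp : p.Prime := Fact.out
  have hpt : p ^ (k0 + 1) ≤ p ^ t := Nat.pow_le_pow_right hp.pos ht
  have hP0 : p ^ (k0 + 1) ≠ 0 := pow_ne_zero _ hp.ne_zero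
  haveI : CharZero κ := charZero_of_injective_algebraMap (algebraMap k1 κ).injective
  haveI : CharZero Ω := charZero_of_injective_algebraMap (algebraMap k1 Ω).injective
  -- a transcendental coordinate
  obtain ⟨j2, hj2⟩ : ∃ j2, ¬ ∃ c : κ, algebraMap κ Ω c = x j2 := by
    by_contra hall
    push Not at hall
    obtain ⟨c', hc'⟩ := mem_of_sub (k1 := k1) (κ := κ) (S := Set.range x)
      (by rintro _ ⟨j, rfl⟩; exact hall j) (mem_Mf.1 (Mf_of_field (hzalg j1)))
    exact hj1 (by rw [← hc', ← map_pow]; exact F.algebraMap_mem (c' ^ (p ^ k0)))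
  have hz1 : z j1 ≠ 0 := by
    intro h
    exact hj1 (by rw [h, zero_pow (pow_ne_zero _ hp.ne_zero)]; exact F.zero_mem)
  obtain ⟨ξ, hξ1, hξp, V, _, ι, α, v, σ, hια, hιv, hσα, hσv⟩ :=
    kummer p hp k0 s ω hω J z F hzF j1 hj1
  generalize hPdef : p ^ (k0 + 1) = P at hnp hpt hP0 hξp
  -- the relations
  have hσi : ∀ (i : ℕ) j, (σ^[i]) (v j) = α (algebraMap κ F (ξ j ^ i)) * v j := by
    intro i j
    induction i with
    | zero => simp
    | succ i ih =>
      rw [Function.iterate_succ_apply', ih, map_mul, hσα, hσv, pow_succ, map_mul, map_mul]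
      ring
  have hσαi : ∀ (i : ℕ) y, (σ^[i]) (α y) = α y := by
    intro i y
    induction i with
    | zero => rfl
    | succ i ih => rw [Function.iterate_succ_apply', ih, hσα]
  obtain ⟨mon, hmon⟩ : ∃ mon : It (Fin (n + 1) ⊕ J) (p ^ t) → Ω, ∀ μ, mon μ =
      (∏ j, x j ^ (μ.1 (Sum.inl j))) * ∏ j, z j ^ (μ.1 (Sum.inr j)) := ⟨_, fun _ => rfl⟩
  obtain ⟨χ, hχ⟩ : ∃ χ : It (Fin (n + 1) ⊕ J) (p ^ t) → κ, ∀ μ, χ μ =
      ∏ j, ξ j ^ (μ.1 (Sum.inr j)) := ⟨_, fun _ => rfl⟩
  have hreli : ∀ i : ℕ, X0 ^ (p ^ t) - a = ∑ μ : It (Fin (n + 1) ⊕ J) (p ^ t),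
      algebraMap κ Ω (c μ) * algebraMap κ Ω (χ μ ^ i) * mon μ := by
    intro i
    let monV : It (Fin (n + 1) ⊕ J) (p ^ t) → V := fun μ =>
      (∏ j, α ⟨x j, hxF j⟩ ^ (μ.1 (Sum.inl j))) * ∏ j, v j ^ (μ.1 (Sum.inr j))
    have h0 : α (⟨X0, hX0⟩ ^ (p ^ t) - ⟨a, haF⟩) = ∑ μ : It (Fin (n + 1) ⊕ J) (p ^ t),
        α (algebraMap κ F (c μ)) * monV μ := by
      apply ι.injective
      rw [hια, map_sum]
      have h1 : ((⟨X0, hX0⟩ ^ (p ^ t) - ⟨a, haF⟩ : F) : Ω) = X0 ^ (p ^ t) - a := rfl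
      rw [h1, hrel, add_sub_cancel_left]
      refine Finset.sum_congr rfl fun μ _ => ?_
      rw [map_mul, hια, map_mul, map_prod, map_prod]
      congr 2
      · exact Finset.prod_congr rfl fun j _ => by rw [map_pow, hια]
      · exact Finset.prod_congr rfl fun j _ => by rw [map_pow, hιv]
    have h2 := congrArg (fun y => ι ((σ^[i]) y)) h0
    have hiter : ∀ y : V, (σ^[i]) y = (σ ^ i) y := by
      intro y
      rw [RingHom.coe_pow]
    simp only [hiter] at h2
    rw [map_sum, map_sum, ← hiter, hσαi, hια] at h2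
    have h1 : ((⟨X0, hX0⟩ ^ (p ^ t) - ⟨a, haF⟩ : F) : Ω) = X0 ^ (p ^ t) - a := rfl
    rw [h1] at h2
    rw [h2]
    refine Finset.sum_congr rfl fun μ _ => ?_
    rw [map_mul, map_mul, ← hiter, hσαi, hια]
    have h3 : (σ ^ i) (monV μ) = α (algebraMap κ F (χ μ ^ i)) * monV μ := by
      change (σ ^ i) (_ * _) = _ * (_ * _)
      rw [map_mul, map_prod, map_prod]
      have h4 : ∀ j, (σ ^ i) (α ⟨x j, hxF j⟩ ^ (μ.1 (Sum.inl j))) =
          α ⟨x j, hxF j⟩ ^ (μ.1 (Sum.inl j)) := by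
        intro j
        rw [map_pow, ← hiter, hσαi]
      have h5 : ∀ j, (σ ^ i) (v j ^ (μ.1 (Sum.inr j))) =
          α (algebraMap κ F ((ξ j ^ (μ.1 (Sum.inr j))) ^ i)) * v j ^ (μ.1 (Sum.inr j)) := by
        intro j
        rw [map_pow, ← hiter, hσi, mul_pow, ← map_pow, ← map_pow, pow_right_comm]
      simp only [h4, h5]
      rw [Finset.prod_mul_distrib, ← map_prod, ← map_prod, Finset.prod_pow, ← hχ]
      ring
    rw [h3, map_mul, hια]
    have h6 : ι (monV μ) = mon μ := by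
      change ι (_ * _) = _
      rw [hmon, map_mul, map_prod, map_prod]
      congr 1
      · exact Finset.prod_congr rfl fun j _ => by rw [map_pow, hια]
      · exact Finset.prod_congr rfl fun j _ => by rw [map_pow, hιv]
    rw [h6]
    change algebraMap κ Ω (c μ) * (algebraMap κ Ω (χ μ ^ i) * _) = _
    ring
  -- the special monomials
  have hdeg : ∀ τ : Fin P, (Finsupp.single (Sum.inl j0 : Fin (n + 1) ⊕ J) (p ^ t - τ.1) +
      Finsupp.single (Sum.inr j1) τ.1).degree = p ^ t := by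
    intro τ
    rw [map_add, Finsupp.degree_single, Finsupp.degree_single]
    have := τ.2
    omega
  obtain ⟨sp, hsp⟩ : ∃ sp : Fin P → It (Fin (n + 1) ⊕ J) (p ^ t), ∀ τ, (sp τ).1 =
      Finsupp.single (Sum.inl j0) (p ^ t - τ.1) + Finsupp.single (Sum.inr j1) τ.1 :=
    ⟨fun τ => ⟨_, hdeg τ⟩, fun _ => rfl⟩
  have hspr : ∀ τ j, (sp τ).1 (Sum.inr j) = if j1 = j then τ.1 else 0 := by
    intro τ j
    rw [hsp, Finsupp.add_apply, Finsupp.single_apply, Finsupp.single_apply, if_neg (by simp),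
      zero_add]
    simp only [Sum.inr.injEq]
  have hspl : ∀ τ j, (sp τ).1 (Sum.inl j) = if j0 = j then p ^ t - τ.1 else 0 := by
    intro τ j
    rw [hsp, Finsupp.add_apply, Finsupp.single_apply, Finsupp.single_apply,
      if_neg (c := Sum.inr j1 = Sum.inl j) (by simp), add_zero]
    simp only [Sum.inl.injEq]
  have hspinj : Function.Injective sp := by
    intro τ τ' h
    have h1 := hspr τ j1
    rw [h, hspr, if_pos rfl, if_pos rfl] at h1
    exact Fin.ext h1.symm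
  have hspχ : ∀ τ, χ (sp τ) = ξ j1 ^ τ.1 := by
    intro τ
    rw [hχ, Finset.prod_eq_single j1]
    · rw [hspr, if_pos rfl]
    · intro j _ hj
      rw [hspr, if_neg (Ne.symm hj), pow_zero]
    · intro h
      exact absurd (Finset.mem_univ _) h
  have hspm : ∀ τ, mon (sp τ) = z j1 ^ τ.1 := by
    intro τ
    rw [hmon, Finset.prod_eq_one, one_mul, Finset.prod_eq_single j1]
    · rw [hspr, if_pos rfl]
    · intro j _ hj
      rw [hspr, if_neg (Ne.symm hj), pow_zero]
    · intro h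
      exact absurd (Finset.mem_univ _) h
    · intro j _
      rw [hspl]
      split_ifs with h
      · rw [← h, hx0, one_pow]
      · rw [pow_zero]
  -- the field generated by the other elements
  let Bd : Finset (It (Fin (n + 1) ⊕ J) (p ^ t)) := Finset.univ.image sp
  have hBdcard : Bd.card = P := by
    rw [Finset.card_image_of_injective _ hspinj, Finset.card_univ, Fintype.card_fin]
  let y : {μ // μ ∉ Bd} ⊕ ({j : Fin (n + 1) // j ≠ j0} ⊕ Unit) → Ω :=
    Sum.elim (fun μ => algebraMap κ Ω (c μ.1)) (Sum.elim (fun j => x j.1) (fun _ => X0))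
  have hyx : ∀ j, x j ∈ Mf k1 (Set.range y) := by
    intro j
    by_cases hj : j = j0
    · rw [hj, hx0]
      exact one_mem _
    · exact Mf_of_mem ⟨Sum.inr (Sum.inl ⟨j, hj⟩), rfl⟩
  have hyX : X0 ∈ Mf k1 (Set.range y) := Mf_of_mem ⟨Sum.inr (Sum.inr ()), rfl⟩
  have hyc : ∀ μ, μ ∉ Bd → algebraMap κ Ω (c μ) ∈ Mf k1 (Set.range y) := fun μ hμ =>
    Mf_of_mem ⟨Sum.inl ⟨μ, hμ⟩, rfl⟩
  have hle : Mf k1 (Set.range x) ≤ Mf k1 (Set.range y) := Mf_le (by
    rintro _ ⟨j, rfl⟩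
    exact hyx j)
  have hyz : ∀ j, z j ∈ Mf k1 (Set.range y) := fun j => hle (Mf_of_field (hzalg j))
  have hya : a ∈ Mf k1 (Set.range y) := hle (Mf_of_field haalg)
  have hroot : ∀ r : κ, r ^ (p ^ s) = 1 → algebraMap κ Ω r ∈ Mf k1 (Set.range y) := by
    intro r hr
    rw [mem_Mf]
    refine (IsIntegral.of_pow (pow_pos hp.pos s) ?_).isAlgebraic
    rw [← map_pow, hr, map_one]
    exact isIntegral_one
  have hymon : ∀ μ, mon μ ∈ Mf k1 (Set.range y) := by
    intro μ
    rw [hmon]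
    exact mul_mem (prod_mem fun j _ => pow_mem (hyx j) _) (prod_mem fun j _ => pow_mem (hyz j) _)
  have hχ1 : ∀ μ, χ μ ^ (p ^ s) = 1 := by
    intro μ
    rw [hχ, ← Finset.prod_pow]
    refine Finset.prod_eq_one fun j _ => ?_
    rw [pow_right_comm, hξ1, one_pow]
  obtain ⟨g, hg⟩ : ∃ g : Fin P → It (Fin (n + 1) ⊕ J) (p ^ t) → κ, ∀ τ μ, g τ μ =
      ∑ i ∈ Finset.range P, ((ξ j1)⁻¹ ^ τ.1 * χ μ) ^ i := ⟨_, fun _ _ => rfl⟩
  have hyg : ∀ τ μ, algebraMap κ Ω (g τ μ) ∈ Mf k1 (Set.range y) := by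
    intro τ μ
    rw [hg, map_sum]
    refine sum_mem fun i _ => ?_
    apply hroot
    apply rt
    rw [mul_pow, hχ1, mul_one]
    exact rt (by rw [inv_pow, hξ1, inv_one]) _
  have hg1 : ∀ τ, g τ (sp τ) = P := by
    intro τ
    rw [hg, hspχ, inv_pow, inv_mul_cancel₀ (pow_ne_zero _ (hξp.ne_zero hP0))]
    simp
  have hg0 : ∀ τ τ', τ ≠ τ' → g τ (sp τ') = 0 := by
    intro τ τ' hne
    rw [hg, hspχ]
    have h0 : ξ j1 ≠ 0 := hξp.ne_zero hP0
    have h1 : (ξ j1)⁻¹ ^ τ.1 * ξ j1 ^ τ'.1 ≠ 1 := by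
      intro h
      apply hne
      have h2 : ξ j1 ^ τ'.1 = ξ j1 ^ τ.1 := by
        rw [inv_pow] at h
        field_simp at h
        exact h
      exact Fin.ext (hξp.pow_inj τ'.2 τ.2 h2).symm
    have h2 : ((ξ j1)⁻¹ ^ τ.1 * ξ j1 ^ τ'.1) ^ P = 1 := by
      rw [mul_pow, ← pow_mul, ← pow_mul, mul_comm τ.1, mul_comm τ'.1, pow_mul, pow_mul, inv_pow,
        hξp.pow_eq_one, inv_one, one_pow, one_pow, one_mul]
    have h3 := mul_geom_sum ((ξ j1)⁻¹ ^ τ.1 * ξ j1 ^ τ'.1) P
    rw [h2, sub_self] at h3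
    rcases mul_eq_zero.1 h3 with h4 | h4
    · exact absurd (sub_eq_zero.1 h4) h1
    · exact h4
  have htot : ∀ τ, ∑ μ : It (Fin (n + 1) ⊕ J) (p ^ t),
      algebraMap κ Ω (c μ) * algebraMap κ Ω (g τ μ) * mon μ ∈ Mf k1 (Set.range y) := by
    intro τ
    have h1 : ∑ μ : It (Fin (n + 1) ⊕ J) (p ^ t),
        algebraMap κ Ω (c μ) * algebraMap κ Ω (g τ μ) * mon μ =
        ∑ i ∈ Finset.range P, algebraMap κ Ω (((ξ j1)⁻¹ ^ τ.1) ^ i) * (X0 ^ (p ^ t) - a) := by
      have h2 : ∀ i ∈ Finset.range P, algebraMap κ Ω (((ξ j1)⁻¹ ^ τ.1) ^ i) * (X0 ^ (p ^ t) - a) =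
          ∑ μ : It (Fin (n + 1) ⊕ J) (p ^ t), algebraMap κ Ω (c μ) *
            algebraMap κ Ω (((ξ j1)⁻¹ ^ τ.1 * χ μ) ^ i) * mon μ := by
        intro i _
        rw [hreli i, Finset.mul_sum]
        refine Finset.sum_congr rfl fun μ _ => ?_
        rw [mul_pow, map_mul]
        ring
      rw [Finset.sum_congr rfl h2, Finset.sum_comm]
      refine Finset.sum_congr rfl fun μ _ => ?_
      rw [hg, map_sum, Finset.mul_sum, Finset.sum_mul]
    rw [h1]
    refine sum_mem fun i _ => mul_mem ?_ (sub_mem (pow_mem hyX _) hya)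
    apply hroot
    exact rt (rt (by rw [inv_pow, hξ1, inv_one]) _) _
  have hspc : ∀ τ, algebraMap κ Ω (c (sp τ)) ∈ Mf k1 (Set.range y) := by
    intro τ
    have h1 := htot τ
    rw [← Finset.add_sum_erase _ _ (Finset.mem_univ (sp τ))] at h1
    have h2 : ∑ μ ∈ Finset.univ.erase (sp τ),
        algebraMap κ Ω (c μ) * algebraMap κ Ω (g τ μ) * mon μ ∈ Mf k1 (Set.range y) := by
      refine sum_mem fun μ hμ => ?_
      by_cases hB : μ ∈ Bd
      · obtain ⟨τ', -, rfl⟩ := Finset.mem_image.1 hB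
        have h3 : τ ≠ τ' := by
          rintro rfl
          exact (Finset.ne_of_mem_erase hμ) rfl
        rw [hg0 τ τ' h3, map_zero, mul_zero, zero_mul]
        exact zero_mem _
      · exact mul_mem (mul_mem (hyc μ hB) (hyg τ μ)) (hymon μ)
    have h3 := sub_mem h1 h2
    rw [add_sub_cancel_right, hg1, hspm, map_natCast] at h3
    have hp0 : (P : Ω) ≠ 0 := Nat.cast_ne_zero.2 hP0
    have h4 : algebraMap κ Ω (c (sp τ)) =
        algebraMap κ Ω (c (sp τ)) * (P : Ω) * z j1 ^ τ.1 / ((P : Ω) * z j1 ^ τ.1) := by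
      field_simp
    rw [h4]
    exact div_mem h3 (mul_mem (natCast_mem _ _) (pow_mem (hyz j1) _))
  have hallc : ∀ μ, algebraMap κ Ω (c μ) ∈ Mf k1 (Set.range y) := by
    intro μ
    by_cases hB : μ ∈ Bd
    · obtain ⟨τ', -, rfl⟩ := Finset.mem_image.1 hB
      exact hspc τ'
    · exact hyc μ hB
  -- the count
  have hcΩ : AlgebraicIndependent k1 (fun μ => algebraMap κ Ω (c μ)) :=
    hc.map' (f := IsScalarTower.toAlgHom k1 κ Ω) (algebraMap κ Ω).injective
  have hopt : AlgebraicIndependent k1 (fun o : Option (It (Fin (n + 1) ⊕ J) (p ^ t)) =>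
      o.elim (x j2) (fun μ => algebraMap κ Ω (c μ))) := by
    rw [hcΩ.option_iff_transcendental]
    intro h
    exact hj2 (mem_of_sub (k1 := k1) (κ := κ) (by rintro _ ⟨μ, rfl⟩; exact ⟨_, rfl⟩) h)
  have hfin := card_le _ hopt y (fun o => by
    rcases o with _ | μ
    · exact hyx j2
    · exact hallc μ)
  have hcn : Fintype.card {j : Fin (n + 1) // j ≠ j0} = n := by
    rw [Fintype.card_subtype_compl, Fintype.card_fin, Fintype.card_subtype_eq]
    omega
  have hle2 : P ≤ Fintype.card (It (Fin (n + 1) ⊕ J) (p ^ t)) := by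
    have h1 := Finset.card_le_univ Bd
    rwa [hBdcard] at h1
  rw [Fintype.card_option, Fintype.card_sum, Fintype.card_sum, Fintype.card_subtype_compl,
    Fintype.card_coe, hBdcard, hcn, Fintype.card_unit] at hfin
  omega

end Pool.Agent.Y3.SP
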